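import Mathlib

namespace Pool.Agent.Results.MP_aa3754_al.Fails

section Defs

variable {F V : Type} [Field F] [AddCommGroup V] [Module F V]

/-- cubic form -/
def IsCubic (N : V → F) : Prop :=
  ∃ D : V → V → F, (∀ x y (l : F), N (x + l • y) = N x + l * D x y + l ^ 2 * D y x + l ^ 3 * N y) ∧
    (∀ y, ∃ Q : QuadraticForm F V, ∀ x, D x y = Q x) ∧ ∀ x, IsLinearMap F (D x)

/-- complete linearization -/
def lin (N : V → F) (v u w : V) : F :=
  N (v + u + w) - N (v + u) - N (v + w) - N (u + w) + N u + N v + N w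

/-- the trace `T` -/
def tr (N : V → F) (c r : V) : F := lin N r c c / 2

/-- the bilinear form `(r, q)` -/
def form (N : V → F) (Δ : LinearMap.BilinForm F V) (c r q : V) : F :=
  tr N c r * tr N c q - lin N r q c - Δ r q

/-- generalized sharped cubic form -/
def IsGSCF (N : V → F) (Δ : LinearMap.BilinForm F V) (sh : QuadraticMap F V V) (c : V) : Prop :=
  IsCubic N ∧ N c = 1 ∧ (∀ r q, Δ r q = Δ q r) ∧ (∀ r, Δ r c = 0) ∧
    (∀ r q, form N Δ c (QuadraticMap.polar sh r q) r + form N Δ c (sh r) q =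
      3 * (lin N r r q / 2)) ∧
    (∀ r, sh (sh r) = (N r + Δ (sh r) r) • r) ∧
    ∀ r, QuadraticMap.polar sh c r = tr N c r • c - r

end Defs

variable {F : Type} [Field F]

def NN (r : Fin 3 → F) : F := r 0 * r 1 * r 2 + r 2 * (r 0 - r 1) ^ 2

noncomputable def DD : LinearMap.BilinForm F (Fin 3 → F) :=
  LinearMap.mk₂ F (fun r q => (r 0 - r 1) * (q 0 - q 1)) (by intros; simp; ring)
    (by intros; simp; ring) (by intros; simp; ring) (by intros; simp; ring)

noncomputable def SH : QuadraticMap F (Fin 3 → F) (Fin 3 → F) :=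
  LinearMap.BilinMap.toQuadraticMap
    (LinearMap.mk₂ F (fun r q => ![r 1 * q 2, r 0 * q 2, r 0 * q 1])
      (by intros; ext i; fin_cases i <;> simp [add_mul])
      (by intros; ext i; fin_cases i <;> simp [mul_assoc])
      (by intros; ext i; fin_cases i <;> simp [mul_add])
      (by intros; ext i; fin_cases i <;> simp [mul_left_comm]))

theorem DD_apply (r q : Fin 3 → F) : DD r q = (r 0 - r 1) * (q 0 - q 1) := rfl

theorem SH_apply (r : Fin 3 → F) : SH r = ![r 1 * r 2, r 0 * r 2, r 0 * r 1] := rfl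

theorem tr_eq (h2 : (2 : F) ≠ 0) (r : Fin 3 → F) : tr NN ![1, 1, 1] r = r 0 + r 1 + r 2 := by
  rw [tr, div_eq_iff h2]
  simp only [lin, NN, Pi.add_apply, Matrix.cons_val]
  ring

theorem result (F : Type) [Field F] (h2 : (2 : F) ≠ 0) (h3 : (3 : F) ≠ 0) :
    ∃ (n : ℕ) (N : (Fin n → F) → F) (Δ : LinearMap.BilinForm F (Fin n → F))
      (sh : QuadraticMap F (Fin n → F) (Fin n → F)) (c : Fin n → F), IsGSCF N Δ sh c ∧
      ∃ r q s, Δ (QuadraticMap.polar sh r q) s - Δ r (QuadraticMap.polar sh q s) ≠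
        1 / 3 * (tr N c s * Δ r q - tr N c r * Δ q s) := by
  refine ⟨3, NN, DD, SH, ![1, 1, 1], ⟨⟨fun x y => y 0 * (x 1 * x 2) + y 1 * (x 0 * x 2) +
    y 2 * (x 0 * x 1) + y 2 * (x 0 - x 1) ^ 2 + 2 * x 2 * (x 0 - x 1) * (y 0 - y 1), ?_, ?_, ?_⟩,
    by simp [NN], ?_, ?_, ?_, ?_, ?_⟩, ![1, 0, 0], ![1, 0, 0], ![0, 0, 1], ?_⟩
  · intro x y l
    simp only [NN, Pi.add_apply, Pi.smul_apply, smul_eq_mul]
    ring
  · intro y
    refine ⟨(2 * y 1 - y 0) • QuadraticMap.proj 1 2 + (2 * y 0 - y 1) • QuadraticMap.proj 0 2 +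
      y 2 • QuadraticMap.proj 0 0 + y 2 • QuadraticMap.proj 1 1 - y 2 • QuadraticMap.proj 0 1,
      fun x => ?_⟩
    simp only [add_apply, sub_apply, smul_apply,
      QuadraticMap.proj_apply, smul_eq_mul]
    ring
  · intro x
    constructor
    · intro y z
      simp only [Pi.add_apply]
      ring
    · intro l y
      simp only [Pi.smul_apply, smul_eq_mul]
      ring
  · intro r q
    simp only [DD_apply]
    ring
  · intro r
    simp [DD_apply]
  · intro r q
    simp only [form, tr_eq h2, ← mul_div_assoc]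
    rw [eq_div_iff h2]
    simp only [lin, NN, DD_apply, QuadraticMap.polar, SH_apply, Pi.add_apply, Pi.sub_apply,
      Matrix.cons_val]
    ring
  · intro r
    ext i
    fin_cases i <;> simp [SH_apply, NN, DD_apply] <;> ring
  · intro r
    rw [tr_eq h2]
    ext i
    fin_cases i <;> simp [QuadraticMap.polar, SH_apply, Matrix.vecHead, Matrix.vecTail] <;> ring
  · simp only [tr_eq h2, DD_apply, QuadraticMap.polar, SH_apply, Pi.add_apply, Pi.sub_apply,
      Matrix.cons_val]
    intro h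
    apply h2
    field_simp at h
    linear_combination h

end Pool.Agent.Results.MP_aa3754_al.Fails
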